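import Pool.Agent.Helper97.CB.St

/-!
# Project CB, module HXB
-/

open MeasureTheory Set Filter

namespace Pool.Agent.Helper22.CB

open Helper97.CB

theorem hHXB (h : StWid) : StHexB := by
  intro K hK s hs
  obtain ⟨hc0, hW0, hconc, -, hSh, hemp, -⟩ := h K hK
  obtain ⟨hKconv, hKcomp, -⟩ := hK
  have hs0 : 0 < s := hs.1
  have hsc : s < cmax K := hs.2
  have hsI : s ∈ Icc 0 (cmax K) := ⟨hs0.le, hsc.le⟩
  -- positivity of the width
  have hD : 0 < wid K s := by
    have h0 : (0 : ℝ) ∈ Icc 0 (cmax K) := ⟨le_refl _, hc0.le⟩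
    have h1 : cmax K ∈ Icc 0 (cmax K) := ⟨hc0.le, le_refl _⟩
    have hlt : s / cmax K < 1 := by
      rw [div_lt_one hc0]; exact hsc
    have hpos : 0 < s / cmax K := div_pos hs0 hc0
    have h2' := hconc.2 h0 h1
    have h2 := @h2' (1 - s / cmax K) (s / cmax K) (by linarith) hpos.le (by ring)
    have h3 : (1 - s / cmax K) • (0 : ℝ) + (s / cmax K) • cmax K = s := by
      simp only [smul_eq_mul, mul_zero, zero_add]
      field_simp
    rw [h3] at h2
    simp only [smul_eq_mul] at h2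
    have h4 := (hSh _ h1).2.1
    have h5 : 0 < (1 - s / cmax K) * wid K 0 := mul_pos (by linarith) hW0
    have h6 : 0 ≤ s / cmax K * wid K (cmax K) := mul_nonneg hpos.le h4
    linarith
  -- compactness of Sh K s
  have hcomp : IsCompact (Sh K s) := by
    have hEq : Sh K s = K ∩ (fun z : ℂ => z + (s : ℂ)) ⁻¹' K := by
      ext z; simp [Sh]
    rw [hEq]
    exact hKcomp.inter_right (hKcomp.isClosed.preimage (by fun_prop))
  have himg : IsCompact (Complex.im '' Sh K s) := hcomp.image Complex.continuous_im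
  have hne : (Complex.im '' Sh K s).Nonempty := (hSh s hsI).1.image _
  obtain ⟨z₂, hz₂, hz₂m⟩ := himg.sSup_mem hne
  obtain ⟨z₁, hz₁, hz₁m⟩ := himg.sInf_mem hne
  obtain ⟨z₀, hz₀⟩ := (hSh (cmax K) ⟨hc0.le, le_refl _⟩).1
  have hDdef : wid K s = z₂.im - z₁.im := by
    unfold wid
    rw [hz₂m, hz₁m]
  -- z₀ is in Sh K s
  have hz₀s : z₀ ∈ Sh K s := by
    refine ⟨hz₀.1, ?_⟩
    have hlt : s / cmax K ≤ 1 := by
      rw [div_le_one hc0]; exact hsc.le
    have hpos : 0 ≤ s / cmax K := (div_pos hs0 hc0).le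
    have h2 := hKconv hz₀.1 hz₀.2 (a := 1 - s / cmax K) (b := s / cmax K) (by linarith) hpos
      (by ring)
    have h3 : (1 - s / cmax K) • z₀ + (s / cmax K) • (z₀ + (cmax K : ℂ)) = z₀ + (s : ℂ) := by
      apply Complex.ext
      · simp
        field_simp
        ring
      · simp
        ring
    rw [h3] at h2
    exact h2
  have hlo : z₁.im ≤ z₀.im := by
    rw [hz₁m]
    exact csInf_le himg.bddBelow ⟨z₀, hz₀s, rfl⟩
  have hhi : z₀.im ≤ z₂.im := by
    rw [hz₂m]
    exact le_csSup himg.bddAbove ⟨z₀, hz₀s, rfl⟩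
  set D := wid K s with hDd
  set c : ℝ := (z₀.im - z₁.im) / D with hcdef
  have hc01 : c ∈ Icc (0 : ℝ) 1 := by
    refine ⟨div_nonneg (by linarith) hD.le, ?_⟩
    rw [hcdef, div_le_one hD]
    linarith
  have hcD : c * D = z₀.im - z₁.im := by
    rw [hcdef]
    field_simp
  -- the two points at the height of z₀
  have hQ : z₁ + (s : ℂ) + (c : ℂ) * (z₂ - z₁) ∈ K := by
    have h2 := hKconv hz₁.2 hz₂.2 (a := 1 - c) (b := c) (by linarith [hc01.2]) hc01.1
      (by ring)
    have h3 : (1 - c) • (z₁ + (s : ℂ)) + c • (z₂ + (s : ℂ)) =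
        z₁ + (s : ℂ) + (c : ℂ) * (z₂ - z₁) := by
      simp only [Complex.real_smul]
      push_cast
      ring
    rw [h3] at h2
    exact h2
  have hR : z₁ + (c : ℂ) * (z₂ - z₁) ∈ K := by
    have h2 := hKconv hz₁.1 hz₂.1 (a := 1 - c) (b := c) (by linarith [hc01.2]) hc01.1
      (by ring)
    have h3 : (1 - c) • z₁ + c • z₂ = z₁ + (c : ℂ) * (z₂ - z₁) := by
      simp only [Complex.real_smul]
      push_cast
      ring
    rw [h3] at h2
    exact h2
  have hcim : c * (z₂.im - z₁.im) = z₀.im - z₁.im := by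
    rw [← hDdef]; exact hcD
  have hγ : z₁.re + s + c * (z₂.re - z₁.re) ≤ z₀.re + cmax K := by
    by_contra hcon
    push Not at hcon
    have h1 := hemp (z₁.re + s + c * (z₂.re - z₁.re) - z₀.re) (by linarith)
    have h2 : z₀ ∈ Sh K (z₁.re + s + c * (z₂.re - z₁.re) - z₀.re) := by
      refine ⟨hz₀.1, ?_⟩
      have h3 : z₀ + ((z₁.re + s + c * (z₂.re - z₁.re) - z₀.re : ℝ) : ℂ) =
          z₁ + (s : ℂ) + (c : ℂ) * (z₂ - z₁) := by
        apply Complex.ext
        · simp
        · simp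
          linarith
      rw [h3]
      exact hQ
    rw [h1] at h2
    exact h2
  have hφ : z₀.re ≤ z₁.re + c * (z₂.re - z₁.re) := by
    by_contra hcon
    push Not at hcon
    have h1 := hemp (z₀.re + cmax K - (z₁.re + c * (z₂.re - z₁.re))) (by linarith)
    have h2 : z₁ + (c : ℂ) * (z₂ - z₁) ∈
        Sh K (z₀.re + cmax K - (z₁.re + c * (z₂.re - z₁.re))) := by
      refine ⟨hR, ?_⟩
      have h3 : z₁ + (c : ℂ) * (z₂ - z₁) +
          ((z₀.re + cmax K - (z₁.re + c * (z₂.re - z₁.re)) : ℝ) : ℂ) =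
          z₀ + (cmax K : ℂ) := by
        apply Complex.ext
        · simp
        · simp
          linarith
      rw [h3]
      exact hz₀.2
    rw [h1] at h2
    exact h2
  have hcr : cr (s : ℂ) (z₂ - z₁) = s * D := by
    unfold cr
    simp
    left
    linarith
  refine ⟨z₁, (s : ℂ), z₂ - z₁, (z₀.re + cmax K - z₁.re - c * (z₂.re - z₁.re)) / s - 1,
    (z₁.re + c * (z₂.re - z₁.re) - z₀.re) / s, c, c, ?_, ?_⟩
  · refine ⟨by rw [hcr]; exact mul_pos hs0 hD, ?_, ?_, hc01, hc01, hz₁.1, hz₁.2, ?_, ?_, ?_, ?_⟩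
    · rw [sub_nonneg, le_div_iff₀ hs0]
      linarith
    · exact div_nonneg (by linarith) hs0.le
    · have h3 : z₁ + (z₂ - z₁) = z₂ := by ring
      rw [h3]
      exact hz₂.1
    · have h3 : z₁ + (s : ℂ) + (z₂ - z₁) = z₂ + (s : ℂ) := by ring
      rw [h3]
      exact hz₂.2
    · have h3 : z₁ + ((1 + ((z₀.re + cmax K - z₁.re - c * (z₂.re - z₁.re)) / s - 1) : ℝ) : ℂ) *
          (s : ℂ) + (c : ℂ) * (z₂ - z₁) = z₀ + (cmax K : ℂ) := by
        have h4 : ((1 + ((z₀.re + cmax K - z₁.re - c * (z₂.re - z₁.re)) / s - 1) : ℝ) : ℂ) *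
          (s : ℂ) = ((z₀.re + cmax K - z₁.re - c * (z₂.re - z₁.re) : ℝ) : ℂ) := by
          rw [← Complex.ofReal_mul]
          congr 1
          field_simp
          ring
        rw [h4]
        apply Complex.ext
        · simp
          ring
        · simp
          linarith
      rw [h3]
      exact hz₀.2
    · have h3 : z₁ - (((z₁.re + c * (z₂.re - z₁.re) - z₀.re) / s : ℝ) : ℂ) *
          (s : ℂ) + (c : ℂ) * (z₂ - z₁) = z₀ := by
        have h4 : (((z₁.re + c * (z₂.re - z₁.re) - z₀.re) / s : ℝ) : ℂ) *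
          (s : ℂ) = ((z₁.re + c * (z₂.re - z₁.re) - z₀.re : ℝ) : ℂ) := by
          rw [← Complex.ofReal_mul]
          congr 1
          field_simp
        rw [h4]
        apply Complex.ext
        · simp
          ring
        · simp
          linarith
      rw [h3]
      exact hz₀.1
  · rw [hcr]
    field_simp
    ring

end Pool.Agent.Helper22.CB
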